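import Pool.Agent.H553.SB.Haar

set_option autoImplicit false

namespace Pool.Agent.Results.MP_fb6d12_an.UpToLogs

open Finset

/-- The `L^∞` normalised Haar function of the dyadic interval `[k 2^{-r}, (k+1) 2^{-r})`:
`-1` on its left half, `1` on its right half and `0` elsewhere. -/
noncomputable def haar1 (r k : ℕ) (x : ℝ) : ℝ :=
  if (k : ℝ) / 2^r ≤ x ∧ x < ((k : ℝ) + 1/2) / 2^r then -1
  else if ((k : ℝ) + 1/2) / 2^r ≤ x ∧ x < ((k : ℝ) + 1) / 2^r then 1 else 0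

/-- The dyadic rectangles of volume `2^{-n}` in `[0,1]^d`: the side lengths are `2^{-s_j}` with
`s_1 + ... + s_d = n`, and the `j`-th side is `[k_j 2^{-s_j}, (k_j+1) 2^{-s_j})`, `k_j < 2^{s_j}`. -/
abbrev Rect (d n : ℕ) : Type :=
  (s : {s : Fin d → Fin (n+1) // ∑ j, ((s j : Fin (n+1)) : ℕ) = n}) ×
    ((j : Fin d) → Fin (2 ^ ((s.1 j : Fin (n+1)) : ℕ)))

/-- The Haar function `h_R(x) = ∏_j h_{I_j}(x_j)` of a dyadic rectangle. -/
noncomputable def haar {d n : ℕ} (R : Rect d n) (x : Fin d → ℝ) : ℝ :=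
  ∏ j, haar1 (R.1.1 j) (R.2 j) (x j)

/-- The hyperbolic sum `∑_{|R| = 2^{-n}} a_R h_R`. -/
noncomputable def hyp {d n : ℕ} (a : Rect d n → ℝ) (x : Fin d → ℝ) : ℝ := ∑ R, a R * haar R x

/-- The supremum of `|∑ a_R h_R|` over the cube `[0,1]^d`. -/
noncomputable def supNorm {d n : ℕ} (a : Rect d n → ℝ) : ℝ :=
  ⨆ x : {x : Fin d → ℝ // ∀ j, x j ∈ Set.Icc (0:ℝ) 1}, |hyp a x|

theorem supNorm_eq {d n : ℕ} (a : Rect d n → ℝ) : supNorm a = HaarSB.supNorm a := rfl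

theorem supNorm_nonneg {d n : ℕ} (a : Rect d n → ℝ) : 0 ≤ supNorm a := by
  rw [supNorm_eq]
  exact (abs_nonneg _).trans (Pool.Agent.H553.SB.sup_ge a (fun _ _ => true))

theorem mm_le (n : ℕ) (hn : 1 ≤ n) :
    (Pool.Agent.NH43.AD.mm n : ℝ) + 1 ≤ 6 * (1 + Real.log n) := by
  have hnR : (1 : ℝ) ≤ n := by exact_mod_cast hn
  have hl0 : 0 ≤ Real.log n := Real.log_nonneg hnR
  have h1 : (2 : ℝ) ^ (Nat.log 2 (n + 2)) ≤ 3 * n := by
    have h : 2 ^ (Nat.log 2 (n + 2)) ≤ 3 * n :=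
      (Nat.pow_log_le_self 2 (x := n + 2) (by omega)).trans (by omega)
    exact_mod_cast h
  have h3 := Real.log_le_log (by positivity) h1
  rw [Real.log_pow, Real.log_mul (by norm_num) (by linarith)] at h3
  have h4 : Real.log 3 ≤ 2 * Real.log 2 := by
    have : Real.log 3 ≤ Real.log (2 ^ 2) := Real.log_le_log (by norm_num) (by norm_num)
    rw [Real.log_pow] at this
    exact_mod_cast this
  have h5 : (0 : ℝ) ≤ (Nat.log 2 (n + 2) : ℝ) := Nat.cast_nonneg _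
  have h6 := Real.log_two_gt_d9
  have h7 : (Nat.log 2 (n + 2) : ℝ) ≤ 2 + 2 * Real.log n := by
    by_contra hcon
    push Not at hcon
    nlinarith
  have h8 : (Pool.Agent.NH43.AD.mm n : ℝ) = (Nat.log 2 (n + 2) : ℝ) + 2 := by
    unfold Pool.Agent.NH43.AD.mm
    push_cast
    ring
  rw [h8]
  linarith

/-- The small ball inequality for hyperbolic Haar sums with the conjectured exponent `(d-2)/2` up
to a power of `log n`, for all real coefficients, in every dimension `d ≥ 3`. -/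
theorem result (d : ℕ) (hd : 3 ≤ d) : ∃ c : ℝ, 0 < c ∧ ∃ A : ℕ, ∀ n : ℕ, 1 ≤ n →
    ∀ a : Rect d n → ℝ,
      c * ((2:ℝ)^n)⁻¹ * ∑ R, |a R| ≤
        (n:ℝ)^(((d:ℝ) - 2) / 2) * (1 + Real.log n)^A * supNorm a := by
  obtain ⟨c, hc, A, h⟩ := Pool.Agent.H553.SB.haar_sb d hd
  refine ⟨c / (2 ^ (((d:ℝ) - 2) / 2) * 6 ^ A), by positivity, A, fun n hn a => ?_⟩
  have h1 := h n a
  rw [← supNorm_eq] at h1
  have hnR : (1 : ℝ) ≤ n := by exact_mod_cast hn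
  have hl0 : 0 ≤ Real.log n := Real.log_nonneg hnR
  have hd' : (0 : ℝ) ≤ ((d:ℝ) - 2) / 2 := by
    have : (3 : ℝ) ≤ d := by exact_mod_cast hd
    linarith
  have h2 : ((n : ℝ) + 1) ^ (((d : ℝ) - 2) / 2) ≤
      2 ^ (((d:ℝ) - 2) / 2) * (n:ℝ)^(((d:ℝ) - 2) / 2) := by
    rw [← Real.mul_rpow (by norm_num) (by linarith)]
    exact Real.rpow_le_rpow (by linarith) (by linarith) hd'
  have h3 : ((Pool.Agent.NH43.AD.mm n : ℝ) + 1) ^ A ≤ 6 ^ A * (1 + Real.log n) ^ A := by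
    rw [← mul_pow]
    exact pow_le_pow_left₀ (by positivity) (mm_le n hn) A
  have hS := supNorm_nonneg a
  have h4 : c * (((2:ℝ)^n)⁻¹ * ∑ R, |a R|) ≤
      (2 ^ (((d:ℝ) - 2) / 2) * (n:ℝ)^(((d:ℝ) - 2) / 2)) * (6 ^ A * (1 + Real.log n) ^ A) *
        supNorm a := by
    refine h1.trans (mul_le_mul_of_nonneg_right ?_ hS)
    exact mul_le_mul h2 h3 (by positivity) (by positivity)
  have h5 : 0 < (2 : ℝ) ^ (((d:ℝ) - 2) / 2) * 6 ^ A := by positivity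
  calc c / (2 ^ (((d:ℝ) - 2) / 2) * 6 ^ A) * ((2:ℝ)^n)⁻¹ * ∑ R, |a R| =
      (c * (((2:ℝ)^n)⁻¹ * ∑ R, |a R|)) / (2 ^ (((d:ℝ) - 2) / 2) * 6 ^ A) := by
        ring
    _ ≤ ((2 ^ (((d:ℝ) - 2) / 2) * (n:ℝ)^(((d:ℝ) - 2) / 2)) * (6 ^ A * (1 + Real.log n) ^ A) *
        supNorm a) / (2 ^ (((d:ℝ) - 2) / 2) * 6 ^ A) := div_le_div_of_nonneg_right h4 h5.le
    _ = _ := by
        field_simp

end Pool.Agent.Results.MP_fb6d12_an.UpToLogs
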